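import Mathlib
import Pool.Agent.H20.Rooted

set_option maxHeartbeats 1000000

namespace Pool.Agent.Results.MP_0d27c8_co.FourFifths

open Finset

/-- `ESPN(G)`: maximum over `U` of the number of external private neighbours plus the number of
self private neighbours with respect to `U`. -/
def ESPN {V : Type} [Fintype V] [DecidableEq V] (G : SimpleGraph V) [DecidableRel G.Adj] : ℕ :=
  (univ : Finset (Finset V)).sup fun U =>
    (univ.filter fun w => w ∉ U ∧ (G.neighborFinset w ∩ U).card = 1).card +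
      (univ.filter fun w => w ∈ U ∧ G.neighborFinset w ∩ U = ∅).card

def gd (b : Bool) (d : ℕ) : ℕ := if b then (if d = 0 then 1 else 0) else (if d = 1 then 1 else 0)
def cp (b : Bool) (d : ℕ) : ℕ := if b then min d 1 else min d 2

def FF : List (List (Bool × ℕ × ℤ)) := [[(true, 0, -4), (false, 0, -4)],
  [(true, 0, -3), (true, 1, -8), (false, 0, -8), (false, 1, -3)],
  [(true, 0, -7), (true, 1, -7), (false, 0, -2), (false, 1, -2)],
  [(true, 0, -2), (true, 1, -7), (false, 1, -7), (false, 2, -2)],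
  [(true, 0, -6), (true, 1, -6), (false, 0, -6), (false, 1, -1)],
  [(true, 0, -5), (false, 0, 0), (false, 1, -5)],
  [(true, 0, -5), (true, 1, -5), (false, 1, -5), (false, 2, 0)],
  [(false, 0, 0), (false, 1, 0), (false, 2, 0)],
  [(false, 0, -4), (false, 1, 1), (false, 2, 1)],
  [(false, 0, 2), (false, 1, 2), (false, 2, -3)],
  [(true, 0, -1), (true, 1, -6), (false, 2, -1)],
  [(true, 0, -4), (true, 1, -4), (false, 2, 1)],
  [(false, 1, -3), (false, 2, 2)],
  [(false, 0, 4), (false, 1, -1)],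
  [(false, 2, 3)]]

theorem closed : ∀ f1 ∈ FF, ∀ f2 ∈ FF, ∃ f ∈ FF, ∀ e ∈ f, ∃ e1 ∈ f1, ∃ e2 ∈ f2,
    e.1 = e1.1 ∧ e.2.1 = cp e1.1 (e1.2.1 + e2.1.toNat) ∧
      e.2.2 ≤ e1.2.2 + e2.2.2 + 5 * gd e2.1 (e2.2.1 + e1.1.toNat) := by decide +kernel

theorem final : ∀ f ∈ FF, ∃ e ∈ f, 0 ≤ e.2.2 + 5 * gd e.1 e.2.1 := by decide +kernel

section
variable {V : Type} [Fintype V] [DecidableEq V] (G : SimpleGraph V) [DecidableRel G.Adj]

def dg (U : Finset V) (v : V) : ℕ := (G.neighborFinset v ∩ U).card

def cnt (W U : Finset V) : ℕ := ∑ v ∈ W, gd (decide (v ∈ U)) (dg G U v)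

def P (W : Finset V) (r : V) (f : List (Bool × ℕ × ℤ)) : Prop :=
  ∀ e ∈ f, ∃ U ⊆ W, e.1 = decide (r ∈ U) ∧ e.2.1 = cp e.1 (dg G U r) ∧
    e.2.2 + 4 * W.card ≤ 5 * cnt G (W.erase r) U

theorem merge (W1 W2 : Finset V) (r s : V) (hr : r ∈ W1) (hs : s ∈ W2) (hd : Disjoint W1 W2)
    (hrs : G.Adj r s) (he : ∀ x ∈ W1, ∀ y ∈ W2, G.Adj x y → x = r ∧ y = s)
    (f1 f2 : List (Bool × ℕ × ℤ)) (h1 : f1 ∈ FF) (h2 : f2 ∈ FF) (p1 : P G W1 r f1)
    (p2 : P G W2 s f2) : ∃ f ∈ FF, P G (W1 ∪ W2) r f := by
  obtain ⟨f, hf, H⟩ := closed f1 h1 f2 h2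
  refine ⟨f, hf, fun e he' => ?_⟩
  obtain ⟨e1, m1, e2, m2, a1, a2, a3⟩ := H e he'
  obtain ⟨U1, s1, b1, b2, b3⟩ := p1 e1 m1
  obtain ⟨U2, s2, c1, c2, c3⟩ := p2 e2 m2
  have hd' := disjoint_left.1 hd
  have hU : ∀ v, dg G (U1 ∪ U2) v = dg G U1 v + dg G U2 v := by
    intro v
    rw [dg, inter_union_distrib_left, card_union_of_disjoint]; · rfl
    exact (hd.mono s1 s2).mono inter_subset_right inter_subset_right
  have d1 : ∀ v ∈ W1, dg G U2 v = if v = r ∧ s ∈ U2 then 1 else 0 := by
    intro v hv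
    split_ifs with h
    · rw [dg, card_eq_one]; refine ⟨s, ?_⟩
      ext y; simp only [mem_inter, SimpleGraph.mem_neighborFinset, mem_singleton]
      exact ⟨fun h' => (he v hv y (s2 h'.2) h'.1).2, fun h' => by rw [h', h.1]; exact ⟨hrs, h.2⟩⟩
    · rw [dg, card_eq_zero, eq_empty_iff_forall_notMem]
      intro y hy
      simp only [mem_inter, SimpleGraph.mem_neighborFinset] at hy
      have := he v hv y (s2 hy.2) hy.1
      exact h ⟨this.1, this.2 ▸ hy.2⟩
  have d2 : ∀ v ∈ W2, dg G U1 v = if v = s ∧ r ∈ U1 then 1 else 0 := by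
    intro v hv
    split_ifs with h
    · rw [dg, card_eq_one]; refine ⟨r, ?_⟩
      ext y; simp only [mem_inter, SimpleGraph.mem_neighborFinset, mem_singleton]
      exact ⟨fun h' => (he y (s1 h'.2) v hv h'.1.symm).1,
        fun h' => by rw [h', h.1]; exact ⟨hrs.symm, h.2⟩⟩
    · rw [dg, card_eq_zero, eq_empty_iff_forall_notMem]
      intro y hy
      simp only [mem_inter, SimpleGraph.mem_neighborFinset] at hy
      have := he y (s1 hy.2) v hv hy.1.symm
      exact h ⟨this.2, this.1 ▸ hy.2⟩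
  have m1 : ∀ v ∈ W1, decide (v ∈ U1 ∪ U2) = decide (v ∈ U1) := fun v hv => by
    have : v ∉ U2 := fun h => hd' hv (s2 h)
    simp [this]
  have m2 : ∀ v ∈ W2, decide (v ∈ U1 ∪ U2) = decide (v ∈ U2) := fun v hv => by
    have : v ∉ U1 := fun h => hd' (s1 h) hv
    simp [this]
  refine ⟨U1 ∪ U2, union_subset_union s1 s2, by rw [m1 r hr, a1, b1], ?_, ?_⟩
  · rw [a2, a1, b2, hU, d1 r hr, c1]
    by_cases h : s ∈ U2 <;> cases e1.1 <;> simp [cp, h] <;> omega
  · have e0 : (W1 ∪ W2).erase r = W1.erase r ∪ W2 := by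
      rw [erase_union_distrib, erase_eq_of_notMem (hd' hr)]
    have e1' : cnt G (W1.erase r) (U1 ∪ U2) = cnt G (W1.erase r) U1 :=
      sum_congr rfl fun v hv => by
        rw [mem_erase] at hv; rw [m1 v hv.2, hU, d1 v hv.2, if_neg (by simp [hv.1]), add_zero]
    have e2' : cnt G (W2.erase s) (U1 ∪ U2) = cnt G (W2.erase s) U2 :=
      sum_congr rfl fun v hv => by
        rw [mem_erase] at hv; rw [m2 v hv.2, hU, d2 v hv.2, if_neg (by simp [hv.1]), zero_add]
    have e3 : gd (decide (s ∈ U1 ∪ U2)) (dg G (U1 ∪ U2) s) = gd e2.1 (e2.2.1 + e1.1.toNat) := by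
      rw [m2 s hs, hU, d2 s hs, c2, b1, ← c1]
      by_cases h : r ∈ U1 <;> cases e2.1 <;> simp [cp, gd, h] <;> grind
    have e4 : cnt G ((W1 ∪ W2).erase r) (U1 ∪ U2) = cnt G (W1.erase r) U1 +
        (cnt G (W2.erase s) U2 + gd e2.1 (e2.2.1 + e1.1.toNat)) := by
      rw [← e1', ← e2', ← e3, e0, cnt, sum_union (hd.mono_left (erase_subset _ _)),
        ← sum_erase_add _ _ hs]; rfl
    rw [e4, card_union_of_disjoint hd]; push_cast; omega

theorem contract (r : V) (par : V → V) (dep : V → ℕ)
    (h1 : ∀ z, z ≠ r → G.Adj z (par z) ∧ dep z = dep (par z) + 1)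
    (h2 : ∀ z w, G.Adj z w → (z ≠ r ∧ w = par z) ∨ (w ≠ r ∧ z = par w)) (n : ℕ) :
    ∀ β : V → V, (univ.filter fun v => β v = v).card = n + 1 → (∀ v, β (β v) = β v) → β r = r →
      (∀ v, v ≠ r → β v = v → β (par v) = par v) →
      (∀ x y, G.Adj x y → β x = β y ∨ (β x = x ∧ β y = y)) →
      (∀ u, β u = u → ∃ f ∈ FF, P G (univ.filter fun v => β v = u) u f) →
      ∃ f ∈ FF, P G univ r f := by
  induction n with
  | zero =>
    intro β hc hi hr _ _ H
    obtain ⟨a, ha⟩ := card_eq_one.1 hc
    have : ∀ v, β v = v → v = a := fun v hv => by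
      rw [← mem_singleton, ← ha]; simpa using hv
    have e : (univ.filter fun v => β v = r) = univ :=
      filter_true_of_mem fun v _ => (this _ (hi v)).trans (this r hr).symm
    simpa [e] using H r hr
  | succ n ih =>
    intro β hc hi hr hp he H
    obtain ⟨z, hz, hmax⟩ := exists_max_image ((univ.filter fun v => β v = v).erase r) dep
      (card_pos.1 (by rw [card_erase_of_mem (by simpa using hr)]; omega))
    simp only [mem_erase, mem_filter, mem_univ, true_and] at hz hmax
    have hpz := hp z hz.1 hz.2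
    have hne : par z ≠ z := (h1 z hz.1).1.ne'
    have hadj : ∀ y, G.Adj z y → β y = y → y = par z := by
      intro y hy hb
      rcases h2 z y hy with h | h
      · exact h.2
      · have := hmax y ⟨h.1, hb⟩
        have := (h1 y h.1).2
        rw [← h.2] at this; omega
    refine ih (fun x => if β x = z then par z else β x) ?_ ?_ ?_ ?_ ?_ ?_
    · have : (univ.filter fun v => (if β v = z then par z else β v) = v) =
          (univ.filter fun v => β v = v).erase z := by
        ext v; simp only [mem_erase, mem_filter, mem_univ, true_and]; grind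
      rw [this, card_erase_of_mem (by simpa using hz.2)]; omega
    · intro v; have := hi v; grind
    · grind
    · intro v hv hb
      have e : β v = v ∧ v ≠ z := by grind
      have := hp v hv e.1
      have : par v ≠ z := fun h => by
        have := hmax v ⟨hv, e.1⟩
        have := (h1 v hv).2
        rw [h] at this; omega
      grind
    · intro x y hxy
      have := he x y hxy
      have a1 := hadj y
      have a2 := hadj x
      have := hxy.symm
      grind
    · intro u hu
      have e : β u = u ∧ u ≠ z := by grind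
      by_cases hu' : u = par z
      · subst hu'
        obtain ⟨f1, m1, p1⟩ := H _ hpz
        obtain ⟨f2, m2, p2⟩ := H _ hz.2
        have := merge G _ _ (par z) z (by simpa using hpz) (by simpa using hz.2)
          (disjoint_filter.2 fun v _ a b => hne (a.symm.trans b)) (h1 z hz.1).1.symm
          (fun x hx y hy hxy => by
            simp only [mem_filter, mem_univ, true_and] at hx hy
            have := he x y hxy
            grind) f1 f2 m1 m2 p1 p2
        convert this using 4
        ext v; simp only [mem_union, mem_filter, mem_univ, true_and]; grind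
      · convert H u e.1 using 4
        ext v; simp only [mem_filter, mem_univ, true_and]; grind

theorem lower (hT : G.IsTree) : 4 * Fintype.card V ≤ 5 * ESPN G := by
  obtain ⟨r⟩ := hT.connected.nonempty
  obtain ⟨par, h1, h2⟩ := Pool.Agent.H20.rooted G hT r
  have hpos : 0 < Fintype.card V := Fintype.card_pos_iff.2 ⟨r⟩
  obtain ⟨f, hf, H⟩ := contract G r par (G.dist r) h1 h2 (Fintype.card V - 1) id
    (by simp; omega) (fun _ => rfl) rfl (fun _ _ _ => rfl) (fun _ _ _ => Or.inr ⟨rfl, rfl⟩)
    (fun u _ => ⟨[(true, 0, -4), (false, 0, -4)], by simp [FF], by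
      intro e he
      simp only [List.mem_cons, List.not_mem_nil, or_false] at he
      rcases he with rfl | rfl
      · exact ⟨{u}, by simp, by simp, by simp [cp, dg], by simp [filter_eq', cnt]⟩
      · exact ⟨∅, by simp, by simp, by simp [cp, dg], by simp [filter_eq', cnt]⟩⟩)
  obtain ⟨e, he, h3⟩ := final f hf
  obtain ⟨U, -, a1, a2, a3⟩ := H e he
  have a4 : cnt G univ U ≤ ESPN G := by
    refine le_trans (le_of_eq ?_) (le_sup (f := fun U =>
      (univ.filter fun w => w ∉ U ∧ (G.neighborFinset w ∩ U).card = 1).card +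
      (univ.filter fun w => w ∈ U ∧ G.neighborFinset w ∩ U = ∅).card) (mem_univ U))
    rw [card_filter, card_filter, ← sum_add_distrib]
    refine sum_congr rfl fun v _ => ?_
    by_cases h : v ∈ U <;> simp [gd, dg, h]
  have a5 : cnt G univ U = cnt G (univ.erase r) U + gd e.1 e.2.1 := by
    rw [cnt, ← sum_erase_add _ _ (mem_univ r), a2, ← a1]
    congr 1
    cases e.1 <;> simp [gd, cp] <;> grind
  rw [card_univ] at a3
  omega
end

def ex : SimpleGraph (Fin 5) where
  Adj a b := (a, b) ∈ [((0 : Fin 5), (1 : Fin 5)), (1, 0), (1, 2), (2, 1), (2, 3), (3, 2), (2, 4), (4, 2)]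
  symm := ⟨by decide⟩
  loopless := ⟨by decide⟩

instance : DecidableRel ex.Adj := fun a b => by unfold ex; infer_instance

theorem result : IsGreatest {c : ℝ | ∀ (n : ℕ) (T : SimpleGraph (Fin n)) [DecidableRel T.Adj],
    T.IsTree → c * n ≤ ESPN T} (4 / 5) := by
  constructor
  · intro n T _ hT
    have := lower T hT
    rw [Fintype.card_fin] at this
    have : (4 * n : ℝ) ≤ 5 * ESPN T := by exact_mod_cast this
    linarith
  · intro c hc
    have h1 : ex.IsTree := by
      rw [SimpleGraph.isTree_iff_connected_and_card, Nat.card_eq_fintype_card,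
        Nat.card_eq_fintype_card]
      exact ⟨by decide +kernel, by decide +kernel⟩
    have h2 := hc 5 ex h1
    have h3 : ESPN ex = 4 := by decide +kernel
    rw [h3] at h2
    push_cast at h2; linarith

end Pool.Agent.Results.MP_0d27c8_co.FourFifths
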